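import Pool.Agent.W2helper80.CL.Key

set_option autoImplicit false

universe u

namespace Pool.Agent.W2helper37.CS

open Set Cardinal Pool.Agent.W2helper80.CL

/-- For regular `κ`, `2 ^< κ` is closed under exponentiation with exponents less than `κ`. -/
theorem powerlt_pow {κ : Cardinal.{u}} (hκ : κ.IsRegular) (hω : ℵ₀ < κ) {ν : Cardinal.{u}}
    (hν : ν < κ) : (2 ^< κ) ^ ν ≤ 2 ^< κ := by
  classical
  let K := κ.ord.ToType
  have hK : #K = κ := mk_ord_toType κ
  have hκ2 : κ ≤ 2 ^< κ := le_of_forall_lt fun x hx => (cantor x).trans_le (le_powerlt 2 hx)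
  have h0 : ℵ₀ ≤ 2 ^< κ := hω.le.trans hκ2
  let P := Σ a : K, Set (Iio a)
  have hP : 2 ^< κ ≤ #P := by
    rw [powerlt_le]
    intro x hx
    obtain ⟨S, hS⟩ := le_mk_iff_exists_set.1 (show x ≤ #K by rw [hK]; exact hx.le)
    obtain ⟨b, hb⟩ := bounded hκ S (hS ▸ hx)
    have h1 : x ≤ #(Iio b) := hS ▸ mk_le_mk_of_subset fun a ha => hb a ha
    calc 2 ^ x ≤ 2 ^ #(Iio b) := power_le_power_left two_ne_zero h1
      _ = #(Set (Iio b)) := mk_set.symm
      _ ≤ #P := mk_le_of_injective (f := fun s => (⟨b, s⟩ : P)) fun s t h =>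
        eq_of_heq (Sigma.mk.inj h).2
  have hinj : #(ν.out → P) ≤ #(Σ b : K, (ν.out → (Iio b × Set (Iio b)))) := by
    have hb : ∀ g : ν.out → P, ∃ b : K, ∀ i, (g i).1 < b := by
      intro g
      obtain ⟨b, hb⟩ := bounded hκ (range fun i => (g i).1)
        (mk_range_le.trans_lt (by rw [mk_out]; exact hν))
      exact ⟨b, fun i => hb _ ⟨i, rfl⟩⟩
    choose b hb using hb
    let F : (ν.out → P) → Σ b : K, (ν.out → (Iio b × Set (Iio b))) := fun g =>
      ⟨b g, fun i => (⟨(g i).1, hb g i⟩, {z | ∃ h : z.1 < (g i).1, (⟨z.1, h⟩ : Iio (g i).1) ∈ (g i).2})⟩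
    let R : (Σ b : K, (ν.out → (Iio b × Set (Iio b)))) → (ν.out → K × Set K) := fun p i =>
      ((p.2 i).1.1, Subtype.val '' (p.2 i).2)
    have hRF : ∀ g i, R (F g) i = ((g i).1, Subtype.val '' (g i).2) := by
      intro g i
      refine Prod.ext rfl ?_
      ext y
      constructor
      · rintro ⟨z, ⟨h, hz⟩, rfl⟩
        exact ⟨_, hz, rfl⟩
      · rintro ⟨z, hz, rfl⟩
        exact ⟨⟨z.1, z.2.trans (hb g i)⟩, ⟨z.2, hz⟩, rfl⟩
    refine mk_le_of_injective (f := F) fun g g' h => funext fun i => ?_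
    have h1 : R (F g) i = R (F g') i := by rw [h]
    rw [hRF, hRF] at h1
    rcases hg : g i with ⟨a, s⟩
    rcases hg' : g' i with ⟨a', s'⟩
    rw [hg, hg'] at h1
    obtain ⟨h2, h3⟩ := Prod.ext_iff.1 h1
    simp only at h2 h3
    subst h2
    rw [Subtype.val_injective.image_injective h3]
  calc (2 ^< κ) ^ ν ≤ #P ^ ν := power_le_power_right hP
    _ = #(ν.out → P) := by simp
    _ ≤ #(Σ b : K, (ν.out → (Iio b × Set (Iio b)))) := hinj
    _ = sum fun b : K => #(ν.out → (Iio b × Set (Iio b))) := mk_sigma _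
    _ ≤ sum fun _ : K => 2 ^< κ := sum_le_sum _ _ fun b => by
        have h1 : #(ν.out → (Iio b × Set (Iio b))) = (#(Iio b) * 2 ^ #(Iio b)) ^ ν := by
          simp
        have hb : #(Iio b) < κ := mk_Iio_toType_ord_lt b
        rw [h1]
        calc (#(Iio b) * 2 ^ #(Iio b)) ^ ν ≤ (2 ^ #(Iio b) * 2 ^ #(Iio b)) ^ ν :=
              power_le_power_right (mul_le_mul_left (cantor _).le _)
          _ = 2 ^ ((#(Iio b) + #(Iio b)) * ν) := by rw [← power_add, power_mul]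
          _ ≤ 2 ^< κ := le_powerlt 2 (mul_lt_of_lt hκ.aleph0_le
              (add_lt_of_lt hκ.aleph0_le hb hb) hν)
    _ = #K * 2 ^< κ := by simp
    _ ≤ (2 ^< κ) * (2 ^< κ) := mul_le_mul_left (by rw [hK]; exact hκ2) _
    _ = 2 ^< κ := mul_eq_self h0

end Pool.Agent.W2helper37.CS
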