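import Pool.Agent.W2helper80.CL.Key

/-!
# The cardinality of normal first countable cellular-Lindelöf spaces (MP_3125f4_gt)
-/

set_option autoImplicit false

universe u

namespace Pool.Agent.W2helper37.CS

open Set Cardinal Topology Filter Pool.Agent.W2helper80.CL

/-- Closing off under fewer than `κ`-ary operations. -/
theorem hull {X : Type u} {α : Type u} (β : α → Type u) (op : ∀ a, (β a → X) → X) (μ : Cardinal.{u})
    (hμ : ℵ₀ ≤ μ) (hα : #α ≤ μ) (hβ : ∀ a, μ ^ #(β a) ≤ μ) :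
    ∃ H : Set X, #H ≤ μ ∧ ∀ a (f : β a → X), (∀ i, f i ∈ H) → op a f ∈ H := by
  let ev : WType β → X := WType.elim X fun p => op p.1 p.2
  refine ⟨range ev, ?_, fun a f hf => ?_⟩
  · refine mk_range_le.trans (WType.cardinalMk_le_of_le ?_)
    calc (sum fun a : α => μ ^ #(β a)) ≤ sum fun _ : α => μ := sum_le_sum _ _ hβ
      _ = #α * μ := by simp
      _ ≤ μ * μ := mul_le_mul_left hα _
      _ = μ := mul_eq_self hμ
  · choose w hw using hf
    refine ⟨WType.mk a w, ?_⟩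
    show op a (fun i => ev (w i)) = op a f
    exact congrArg _ (funext hw)

theorem card_le {X : Type u} [TopologicalSpace X] [T1Space X] [NormalSpace X]
    [FirstCountableTopology X] (hX : CellularLindelof X) (κ : Cardinal.{u}) (hκ : κ.IsRegular)
    (hω : ℵ₀ < κ)
    (hL : ∀ A : Set X, #A < κ → ∀ 𝒰 : Set (Set X), (∀ U ∈ 𝒰, IsOpen U) → closure A ⊆ ⋃₀ 𝒰 →
      ∃ 𝒱 ⊆ 𝒰, #𝒱 ≤ κ ∧ closure A ⊆ ⋃₀ 𝒱)
    (μ : Cardinal.{u}) (hκμ : κ ≤ μ) (hμ : ∀ ν < κ, μ ^ ν ≤ μ) : #X ≤ μ := by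
  classical
  have : T4Space X := {}
  have hμ0 : ℵ₀ ≤ μ := hω.le.trans hκμ
  rcases isEmpty_or_nonempty X with hE | ⟨⟨x0⟩⟩
  · simp
  have hU : ∀ x : X, ∃ U : ℕ → Set X, (∀ n, IsOpen (U n) ∧ x ∈ U n) ∧
      ∀ V, IsOpen V → x ∈ V → ∃ n, U n ⊆ V := by
    intro x
    obtain ⟨B, hB⟩ := (𝓝 x).exists_antitone_basis
    refine ⟨fun n => interior (B n), fun n => ⟨isOpen_interior, mem_interior_iff_mem_nhds.2
      (hB.mem n)⟩, fun V hV hx => ?_⟩
    obtain ⟨n, hn⟩ := hB.mem_iff.1 (hV.mem_nhds hx)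
    exact ⟨n, interior_subset.trans hn⟩
  choose U hU1 hU2 using hU
  let K := κ.ord.ToType
  let β : (PUnit.{u+1} ⊕ PUnit.{u+1}) ⊕ (Σ a : K, (Iio a → ℕ)) → Type u :=
    Sum.elim (Sum.elim (fun _ => PEmpty) (fun _ => ULift ℕ)) fun p => Iio p.1
  let op : ∀ a, (β a → X) → X := fun a => match a with
    | Sum.inl (Sum.inl _) => fun _ => x0
    | Sum.inl (Sum.inr _) => fun f =>
        if h : ∃ x, Tendsto (fun n : ℕ => f ⟨n⟩) atTop (𝓝 x) then h.choose else x0
    | Sum.inr p => fun f =>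
        if h : ∃ q, q ∉ closure (⋃ i : Iio p.1, U (f i) (p.2 i)) then h.choose else x0
  have hβ : ∀ a, #(β a) < κ := by
    rintro ((_ | _) | p)
    · simpa [β] using hκ.pos
    · simpa [β] using hω
    · exact mk_Iio_toType_ord_lt p.1
  have hα : #((PUnit.{u+1} ⊕ PUnit.{u+1}) ⊕ (Σ a : K, (Iio a → ℕ))) ≤ μ := by
    have h1 : #(Σ a : K, (Iio a → ℕ)) ≤ μ := by
      rw [mk_sigma]
      calc (sum fun a : K => #(Iio a → ℕ)) ≤ sum fun _ : K => μ := by
            refine sum_le_sum _ _ fun a => ?_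
            have : #(Iio a → ℕ) = ℵ₀ ^ #(Iio a) := by simp
            rw [this]
            exact (power_le_power_right hμ0).trans (hμ _ (mk_Iio_toType_ord_lt a))
        _ = #K * μ := by simp
        _ ≤ μ * μ := mul_le_mul_left (by rw [mk_ord_toType]; exact hκμ) _
        _ = μ := mul_eq_self hμ0
    rw [mk_sum, mk_sum]
    simp only [lift_id, mk_punit]
    exact add_le_of_le hμ0 (add_le_of_le hμ0 ((one_le_aleph0).trans hμ0) ((one_le_aleph0).trans hμ0)) h1
  obtain ⟨H, hH, hop⟩ := hull β op μ hμ0 hα fun a => hμ _ (hβ a)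
  have hx0 : x0 ∈ H := hop (Sum.inl (Sum.inl PUnit.unit)) (fun i => i.elim) fun i => i.elim
  have hcl : IsClosed H := by
    apply isClosed_of_closure_subset
    intro x hx
    obtain ⟨s, hs, hsx⟩ := mem_closure_iff_seq_limit.1 hx
    have h1 : ∃ x, Tendsto (fun n : ℕ => s n) atTop (𝓝 x) := ⟨x, hsx⟩
    have h2 := hop (Sum.inl (Sum.inr PUnit.unit)) (fun i : ULift ℕ => s i.down) fun i => hs _
    have h3 : op (Sum.inl (Sum.inr PUnit.unit)) (fun i : ULift ℕ => s i.down) = h1.choose :=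
      dif_pos h1
    rw [h3] at h2
    rwa [tendsto_nhds_unique hsx h1.choose_spec]
  have hall : H = Set.univ := by
    by_contra hne
    obtain ⟨p, hp⟩ : ∃ p, p ∉ H := by
      by_contra h
      push Not at h
      exact hne (eq_univ_of_forall h)
    obtain ⟨G0, hG0, hHG0, hpG0⟩ : ∃ G0, IsOpen G0 ∧ H ⊆ G0 ∧ p ∉ closure G0 := by
      obtain ⟨G0, h1, h2, h3⟩ := normal_exists_closure_subset hcl (isClosed_singleton (x := p)).isOpen_compl
        (fun x hx h => hp (by rwa [mem_singleton_iff.1 h] at hx))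
      exact ⟨G0, h1, h2, fun h => h3 h rfl⟩
    have hn : ∀ x : X, ∃ n, x ∈ H → U x n ⊆ G0 := by
      intro x
      by_cases hx : x ∈ H
      · obtain ⟨n, hn⟩ := hU2 x G0 hG0 (hHG0 hx)
        exact ⟨n, fun _ => hn⟩
      · exact ⟨0, fun h => absurd h hx⟩
    choose n hn using hn
    obtain ⟨G, hG, hHG, hGO⟩ := normal_exists_closure_subset hcl
      (isOpen_iUnion fun x : H => (hU1 x (n x)).1) (fun x hx => mem_iUnion.2 ⟨⟨x, hx⟩, (hU1 x _).2⟩)
    obtain ⟨𝒱, hV, hVκ, hd⟩ := Pool.Agent.W2helper80.CL.main hX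
      (fun A x hx => by
        obtain ⟨s, hs, hsx⟩ := mem_closure_iff_seq_limit.1 hx
        exact ⟨range s, by rintro _ ⟨k, rfl⟩; exact hs k, countable_range s,
          mem_closure_of_tendsto hsx (Eventually.of_forall fun k => ⟨k, rfl⟩)⟩) κ hκ hω
      (insert (closure G)ᶜ (range fun x : H => U x (n x))) (by
        rintro _ (rfl | ⟨x, rfl⟩)
        exacts [isClosed_closure.isOpen_compl, (hU1 _ _).1]) (by
        apply eq_univ_of_forall
        intro y
        by_cases hy : y ∈ closure G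
        · obtain ⟨x, hx⟩ := mem_iUnion.1 (hGO hy)
          exact ⟨_, Or.inr ⟨x, rfl⟩, hx⟩
        · exact ⟨_, Or.inl rfl, hy⟩) (fun A hA => by
        refine hL A hA _ (by
          rintro _ (rfl | ⟨x, rfl⟩)
          exacts [isClosed_closure.isOpen_compl, (hU1 _ _).1]) fun y _ => ?_
        by_cases hy : y ∈ closure G
        · obtain ⟨x, hx⟩ := mem_iUnion.1 (hGO hy)
          exact ⟨_, Or.inr ⟨x, rfl⟩, hx⟩
        · exact ⟨_, Or.inl rfl, hy⟩)
    -- the members of the form `U x (n x)`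
    let 𝒱' : Set (Set X) := 𝒱 ∩ range fun x : H => U x (n x)
    have hV'κ : #𝒱' < κ := (mk_le_mk_of_subset inter_subset_left).trans_lt hVκ
    have hx' : ∀ V : 𝒱', ∃ x : H, U x (n x) = (V : Set X) := fun V => V.2.2
    choose x hx using hx'
    obtain ⟨S, hS⟩ : ∃ S : Set K, #S = #𝒱' := by
      have : #𝒱' ≤ #K := by rw [mk_ord_toType]; exact hV'κ.le
      exact (le_mk_iff_exists_set.1 this)
    obtain ⟨b, hb⟩ := bounded hκ S (hS ▸ hV'κ)
    obtain ⟨e⟩ := Cardinal.eq.1 hS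
    let φ : 𝒱' → Iio b := fun V => ⟨(e.symm V : K), hb _ (e.symm V).2⟩
    have hφ : Function.Injective φ := by
      intro V W h
      have h1 : ((e.symm V : S) : K) = ((e.symm W : S) : K) :=
        congrArg (fun z : Iio b => (z : K)) h
      exact e.symm.injective (Subtype.ext h1)
    let f : Iio b → X := Function.extend φ (fun V => ((x V : H) : X)) fun _ => x0
    have hf : ∀ i, f i ∈ H := by
      intro i
      by_cases h : ∃ V, φ V = i
      · obtain ⟨V, rfl⟩ := h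
        simp only [f, hφ.extend_apply]
        exact (x V).2
      · simp only [f, Function.extend_apply' _ _ _ h]
        exact hx0
    let O : Set X := ⋃ i : Iio b, U (f i) (n (f i))
    have hOG : O ⊆ G0 := iUnion_subset fun i => hn _ (hf i)
    have hq : ∃ q, q ∉ closure (⋃ i : Iio b, U (f i) (n (f i))) :=
      ⟨p, fun h => hpG0 (closure_mono hOG h)⟩
    have h2 := hop (Sum.inr ⟨b, fun i => n (f i)⟩) f hf
    have h3 : op (Sum.inr ⟨b, fun i => n (f i)⟩) f = hq.choose := dif_pos hq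
    rw [h3] at h2
    refine hq.choose_spec ?_
    rw [mem_closure_iff]
    intro N hN hqN
    obtain ⟨y, ⟨hyN, hyG⟩, V, hV', hyV⟩ := dense_iff_inter_open.1 hd (N ∩ G) (hN.inter hG)
      ⟨_, hqN, hHG h2⟩
    have hVr : V ∈ 𝒱' := by
      refine ⟨hV', ?_⟩
      rcases hV hV' with rfl | h
      · exact absurd (subset_closure hyG) hyV
      · exact h
    refine ⟨y, hyN, mem_iUnion.2 ⟨φ ⟨V, hVr⟩, ?_⟩⟩
    simp only [f, hφ.extend_apply]
    rw [hx]
    exact hyV
  rw [hall, mk_univ] at hH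
  exact hH

end Pool.Agent.W2helper37.CS
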